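import Mathlib

section

set_option autoImplicit false

namespace Pool.Agent.Lib.MP_69c751_al

section Ring

variable {R : Type} [CommRing R] {ι : Type} [Fintype ι] [DecidableEq ι]
  {N : ι → R} {q : ι → ℤ} {ε : R →+* ℤ}

theorem NS_mul (hN : ∀ i, N i * N i = (q i : R) * N i) (S : Finset ι) (j : ι) (hj : j ∈ S) :
    (∏ i ∈ S \ {j}, N i) * ∏ i ∈ S, N i = ((∏ i ∈ S \ {j}, q i : ℤ) : R) * ∏ i ∈ S, N i := by
  have h1 : ∏ i ∈ S, N i = N j * ∏ i ∈ S \ {j}, N i :=
    Finset.prod_eq_mul_prod_sdiff_singleton_of_mem hj _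
  have h2 : (∏ i ∈ S \ {j}, N i) * (∏ i ∈ S \ {j}, N i) =
      ((∏ i ∈ S \ {j}, q i : ℤ) : R) * ∏ i ∈ S \ {j}, N i := by
    rw [← Finset.prod_mul_distrib]
    push_cast
    rw [← Finset.prod_mul_distrib]
    exact Finset.prod_congr rfl (fun i _ => hN i)
  rw [h1]
  linear_combination (N j) * h2

/-- The ideal generated by the products of `r` distinct norm elements. -/
def I (N : ι → R) (r : ℕ) : Ideal R :=
  Ideal.span {x : R | ∃ S : Finset ι, S.card = r ∧ x = ∏ i ∈ S, N i}

theorem exists_bS (hN : ∀ i, N i * N i = (q i : R) * N i) (hq : Pairwise (Function.onFun IsCoprime q))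
    (hε : ∀ i, ε (N i) = q i) (r : ℕ) (S : Finset ι) (hS : S.card = r + 1) :
    ∃ b ∈ I N r, ε b = 1 ∧ (1 - b) * ∏ i ∈ S, N i = 0 := by
  have hne : S.Nonempty := Finset.card_pos.1 (by omega)
  obtain ⟨μ, hμ⟩ := (exists_sum_eq_one_iff_pairwise_coprime (s := q) hne).2
    (fun i j hij => hq (fun h => hij (Subtype.ext h)))
  refine ⟨∑ j ∈ S, (μ j : R) * ∏ i ∈ S \ {j}, N i, ?_, ?_, ?_⟩
  · apply Ideal.sum_mem
    intro j hj
    apply Ideal.mul_mem_left
    apply Ideal.subset_span
    refine ⟨S \ {j}, ?_, rfl⟩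
    rw [Finset.sdiff_singleton_eq_erase, Finset.card_erase_of_mem hj, hS]
    omega
  · rw [map_sum, ← hμ]
    apply Finset.sum_congr rfl
    intro j _
    rw [map_mul, map_prod, map_intCast]
    simp [hε]
  · rw [sub_mul, one_mul, sub_eq_zero, Finset.sum_mul]
    have h1 : ∀ j ∈ S, (μ j : R) * (∏ i ∈ S \ {j}, N i) * ∏ i ∈ S, N i =
        ((μ j * ∏ i ∈ S \ {j}, q i : ℤ) : R) * ∏ i ∈ S, N i := by
      intro j hj
      rw [mul_assoc, NS_mul hN S j hj]
      push_cast
      ring
    rw [Finset.sum_congr rfl h1, ← Finset.sum_mul, ← Int.cast_sum, hμ]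
    simp

theorem exists_b (hN : ∀ i, N i * N i = (q i : R) * N i) (hq : Pairwise (Function.onFun IsCoprime q))
    (hε : ∀ i, ε (N i) = q i) (r : ℕ) (hr : r + 1 ≤ Fintype.card ι) :
    ∃ b ∈ I N r, ε b = 1 ∧ ∀ x ∈ I N (r + 1), (1 - b) * x = 0 := by
  classical
  have h1 : ∀ S : Finset ι, ∃ b : R, S.card = r + 1 →
      (b ∈ I N r ∧ ε b = 1 ∧ (1 - b) * ∏ i ∈ S, N i = 0) := by
    intro S
    by_cases hS : S.card = r + 1
    · obtain ⟨b, hb⟩ := exists_bS hN hq hε r S hS
      exact ⟨b, fun _ => ⟨hb.1, hb.2⟩⟩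
    · exact ⟨0, fun h => absurd h hS⟩
  choose bS hbS using h1
  set P := Finset.powersetCard (r + 1) (Finset.univ : Finset ι) with hP
  have hPne : P.Nonempty := by
    rw [hP]
    apply Finset.powersetCard_nonempty.2
    rwa [Finset.card_univ]
  have hPc : ∀ S ∈ P, S.card = r + 1 := fun S hS => (Finset.mem_powersetCard.1 hS).2
  refine ⟨1 - ∏ S ∈ P, (1 - bS S), ?_, ?_, ?_⟩
  · rw [← Ideal.Quotient.eq_zero_iff_mem, map_sub, map_one, map_prod]
    have h2 : ∀ S ∈ P, Ideal.Quotient.mk (I N r) (1 - bS S) = 1 := by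
      intro S hS
      rw [map_sub, map_one, Ideal.Quotient.eq_zero_iff_mem.2 (hbS S (hPc S hS)).1, sub_zero]
    rw [Finset.prod_eq_one h2, sub_self]
  · rw [map_sub, map_one, map_prod]
    obtain ⟨S, hS⟩ := hPne
    rw [Finset.prod_eq_zero hS]
    · simp
    · rw [map_sub, map_one, (hbS S (hPc S hS)).2.1, sub_self]
  · intro x hx
    rw [sub_sub_cancel]
    unfold I at hx
    induction hx using Submodule.span_induction with
    | mem x hx =>
      obtain ⟨S, hS, rfl⟩ := hx
      have hSP : S ∈ P := by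
        rw [hP, Finset.mem_powersetCard]
        exact ⟨Finset.subset_univ _, hS⟩
      rw [← Finset.prod_erase_mul _ _ hSP, mul_assoc, (hbS S hS).2.2, mul_zero]
    | zero => rw [mul_zero]
    | add x y _ _ hx hy => rw [mul_add, hx, hy, add_zero]
    | smul a x _ hx => rw [smul_eq_mul, mul_left_comm, hx, mul_zero]

end Ring

end Pool.Agent.Lib.MP_69c751_al
end

section

set_option autoImplicit false

namespace Pool.Agent.Lib.MP_69c751_al

universe u

section Words

variable {T : Type} [Group T]

/-- The word `∏ (t x t⁻¹) ^ (b t)` (in some fixed order) for `b` in the group ring of `T`. -/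
noncomputable def act {H : Type u} [Group H] (b : MonoidAlgebra ℤ T) (f : T →* H) (x : H) : H :=
  (b.coeff.support.toList.map (fun t => (f t * x * (f t)⁻¹) ^ (b.coeff t))).prod

theorem map_act {H K : Type*} [Group H] [Group K] (g : H →* K) (b : MonoidAlgebra ℤ T)
    (f : T →* H) (x : H) : g (act b f x) = act b (g.comp f) (g x) := by
  unfold act
  rw [map_list_prod, List.map_map]
  congr 1
  apply List.map_congr_left
  intro t _
  simp

theorem end_sum_apply {A : Type*} [AddCommGroup A] (s : Finset T) (φ : T → AddMonoid.End A)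
    (x : A) : (∑ a ∈ s, φ a) x = ∑ a ∈ s, φ a x := by
  classical
  induction s using Finset.induction_on with
  | empty => simp
  | insert a s ha ih => rw [Finset.sum_insert ha, Finset.sum_insert ha, ← ih]; rfl

theorem end_mul_apply {A : Type*} [AddCommGroup A] (φ ψ : AddMonoid.End A) (x : A) :
    (φ * ψ) x = φ (ψ x) := rfl

theorem act_lift {D M : Type*} [Group D] [CommGroup M] {H : Type u} [Group H]
    (ρ : T →* AddMonoid.End (Additive M))
    (f : T →* H) (j : D →* H) (α : T → D → D) (π : D →* M)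
    (hα : ∀ t x, j (α t x) = f t * j x * (f t)⁻¹)
    (hπ : ∀ t x, Additive.ofMul (π (α t x)) = ρ t (Additive.ofMul (π x)))
    (b : MonoidAlgebra ℤ T) (x : D) :
    ∃ y : D, j y = act b f (j x) ∧
      Additive.ofMul (π y) = MonoidAlgebra.lift ℤ (AddMonoid.End (Additive M)) T ρ b
        (Additive.ofMul (π x)) := by
  refine ⟨(b.coeff.support.toList.map (fun t => (α t x) ^ (b.coeff t))).prod, ?_, ?_⟩
  · unfold act
    rw [map_list_prod, List.map_map]
    congr 1
    apply List.map_congr_left
    intro t _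
    simp [hα]
  · rw [map_list_prod, List.map_map, MonoidAlgebra.lift_apply, Finsupp.sum]
    rw [ofMul_list_prod, List.map_map]
    rw [end_sum_apply]
    rw [← Finset.sum_map_toList]
    congr 1
    apply List.map_congr_left
    intro t _
    simp [hπ]

section Step

variable {H : Type u} [Group H]

theorem of_surj {K : Type u} [Group K] :
    Function.Surjective (Abelianization.of : K →* Abelianization K) :=
  QuotientGroup.mk_surjective

/-- The endomorphism of the abelianization given by an automorphism. -/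
noncomputable def mapAb {K : Type u} [Group K] (g : MulAut K) :
    AddMonoid.End (Additive (Abelianization K)) :=
  MonoidHom.toAdditive (Abelianization.map g.toMonoidHom)

theorem mapAb_of {K : Type u} [Group K] (g : MulAut K) (y : K) :
    mapAb g (Additive.ofMul (Abelianization.of y)) = Additive.ofMul (Abelianization.of (g y)) := by
  show Additive.ofMul (Abelianization.map g.toMonoidHom (Abelianization.of y)) = _
  rw [Abelianization.map_of]
  rfl

/-- The action of `T` on the abelianization of a normal subgroup `D`. -/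
noncomputable def rhoD (f : T →* H) (D : Subgroup H) [D.Normal] :
    T →* AddMonoid.End (Additive (Abelianization D)) where
  toFun t := mapAb (MulAut.conjNormal (f t))
  map_one' := by
    ext x
    obtain ⟨y, rfl⟩ := Additive.ofMul.surjective x
    obtain ⟨y, rfl⟩ := of_surj y
    rw [mapAb_of, map_one, map_one]
    rfl
  map_mul' s t := by
    ext x
    obtain ⟨y, rfl⟩ := Additive.ofMul.surjective x
    obtain ⟨y, rfl⟩ := of_surj y
    rw [end_mul_apply, mapAb_of, mapAb_of, mapAb_of, map_mul, map_mul]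
    rfl

theorem rhoD_of (f : T →* H) (D : Subgroup H) [D.Normal] (t : T) (y : D) :
    rhoD f D t (Additive.ofMul (Abelianization.of y)) =
      Additive.ofMul (Abelianization.of (MulAut.conjNormal (f t) y)) :=
  mapAb_of _ _

theorem act_class (f : T →* H) (D : Subgroup H) [D.Normal] (b : MonoidAlgebra ℤ T) (x : D) :
    ∃ y : D, (y : H) = act b f (x : H) ∧
      Additive.ofMul (Abelianization.of y) =
        MonoidAlgebra.lift ℤ (AddMonoid.End (Additive (Abelianization D))) T (rhoD f D) b
          (Additive.ofMul (Abelianization.of x)) :=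
  act_lift (rhoD f D) f D.subtype (fun t x => MulAut.conjNormal (f t) x) Abelianization.of
    (fun t x => MulAut.conjNormal_apply _ _) (fun t x => (rhoD_of f D t x).symm) b x

theorem mem_of_class_eq_zero (D : Subgroup H) (x : D)
    (hx : Additive.ofMul (Abelianization.of x) = 0) : (x : H) ∈ ⁅D, D⁆ := by
  have h1 : Abelianization.of x = 1 := hx
  have h2 : x ∈ (Abelianization.of : D →* Abelianization D).ker := h1
  rw [Abelianization.ker_of] at h2
  have h3 : (D.subtype x) ∈ (commutator D).map D.subtype := ⟨x, h2, rfl⟩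
  rw [commutator_def, Subgroup.map_commutator, ← MonoidHom.range_eq_map, Subgroup.range_subtype] at h3
  exact h3

/-- The key step. -/
theorem step (f : T →* H) (D : Subgroup H) [D.Normal] (b : ℕ → MonoidAlgebra ℤ T) (x : ℕ → H)
    (c : H) (m : ℕ) (hm : 1 ≤ m) (hx : ∀ i, i ≤ m → x i ∈ D)
    (hxs : ∀ i, i < m → act (b (i + 1)) f (x (i + 1)) = x i)
    (hc : act (b 0) f (x 0) = c) (hc0 : act (b 0) f c = 1)
    (hb : ∀ i, i < m → (1 - b i) * b (i + 1) = 0) :
    c ∈ ⁅D, D⁆ ∧ ∀ i, i < m → x i ∈ ⁅D, D⁆ := by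
  set Φ := MonoidAlgebra.lift ℤ (AddMonoid.End (Additive (Abelianization D))) T (rhoD f D) with hΦ
  -- classes
  have hcl : ∀ i, ∃ X : Additive (Abelianization D), ∀ h : x i ∈ D,
      X = Additive.ofMul (Abelianization.of (⟨x i, h⟩ : D)) := by
    intro i
    by_cases h : x i ∈ D
    · exact ⟨Additive.ofMul (Abelianization.of (⟨x i, h⟩ : D)), fun _ => rfl⟩
    · exact ⟨0, fun h' => absurd h' h⟩
  choose X hX using hcl
  have hXs : ∀ i, i < m → X i = Φ (b (i + 1)) (X (i + 1)) := by
    intro i hi
    have h1 := hx i (by omega)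
    have h2 := hx (i + 1) (by omega)
    obtain ⟨y, hy1, hy2⟩ := act_class f D (b (i + 1)) ⟨x (i + 1), h2⟩
    have hy : y = ⟨x i, h1⟩ := by
      apply Subtype.ext
      rw [hy1]
      exact hxs i hi
    rw [hX i h1, hX (i + 1) h2, ← hy2, hy]
  have h0 := hx 0 (by omega)
  obtain ⟨yc, hyc1, hyc2⟩ := act_class f D (b 0) ⟨x 0, h0⟩
  have hcD : c ∈ D := by
    rw [← hc]
    have : act (b 0) f (x 0) = (yc : H) := hyc1.symm
    rw [this]
    exact yc.2
  set C := Additive.ofMul (Abelianization.of (⟨c, hcD⟩ : D)) with hC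
  have hC1 : C = Φ (b 0) (X 0) := by
    have hy : yc = ⟨c, hcD⟩ := by
      apply Subtype.ext
      rw [hyc1]
      exact hc
    rw [hC, hX 0 h0, ← hyc2, hy]
  have hC2 : Φ (b 0) C = 0 := by
    obtain ⟨y, hy1, hy2⟩ := act_class f D (b 0) ⟨c, hcD⟩
    have hy : y = 1 := by
      apply Subtype.ext
      rw [hy1]
      exact hc0
    rw [hC, ← hy2, hy]
    simp
  have hfix : ∀ i, i < m → Φ (b i) (X i) = X i := by
    intro i hi
    have h1 : Φ ((1 - b i) * b (i + 1)) (X (i + 1)) = 0 := by
      rw [hb i hi, map_zero]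
      rfl
    rw [map_mul, end_mul_apply, ← hXs i hi, map_sub, map_one] at h1
    have h2 : (1 - Φ (b i)) (X i) = X i - Φ (b i) (X i) := rfl
    rw [h2, sub_eq_zero] at h1
    exact h1.symm
  have hX0 : X 0 = 0 := by
    have h1 := hfix 0 (by omega)
    rw [← hC1] at h1
    rw [← h1] at hC1
    rw [hC2] at hC1
    rw [← h1]
    exact hC1
  have hXi : ∀ i, i < m → X i = 0 := by
    intro i
    induction i with
    | zero => intro _; exact hX0
    | succ i ih =>
      intro hi
      have h1 := ih (by omega)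
      rw [← hfix (i + 1) hi, ← hXs i (by omega)]
      exact h1
  refine ⟨?_, ?_⟩
  · apply mem_of_class_eq_zero D ⟨c, hcD⟩
    show C = 0
    rw [hC1, hX0, map_zero]
  · intro i hi
    have h1 := hx i (by omega)
    apply mem_of_class_eq_zero D ⟨x i, h1⟩
    rw [← hX i h1]
    exact hXi i hi

/-- The iterated step. -/
theorem iterate (f : T →* H) (b : ℕ → MonoidAlgebra ℤ T) (x : ℕ → H)
    (c : H) (k : ℕ)
    (hxs : ∀ i, i < k → act (b (i + 1)) f (x (i + 1)) = x i)
    (hc : act (b 0) f (x 0) = c) (hc0 : act (b 0) f c = 1)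
    (hb : ∀ i, i < k → (1 - b i) * b (i + 1) = 0) (j : ℕ) (hj : j ≤ k) :
    c ∈ derivedSeries H j ∧ ∀ i, i ≤ k - j → x i ∈ derivedSeries H j := by
  induction j with
  | zero => simp
  | succ j ih =>
    obtain ⟨_, h2⟩ := ih (by omega)
    have h3 := step f (derivedSeries H j) b x c (k - j) (by omega) h2
      (fun i hi => hxs i (by omega)) hc hc0 (fun i hi => hb i (by omega))
    rw [derivedSeries_succ]
    exact ⟨h3.1, fun i hi => h3.2 i (by omega)⟩

end Step

end Words

end Pool.Agent.Lib.MP_69c751_al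
end

section

set_option autoImplicit false

namespace Pool.Agent.Lib.MP_69c751_al

universe u

theorem end_add_apply {A : Type*} [AddCommGroup A] (φ ψ : AddMonoid.End A) (x : A) :
    (φ + ψ) x = φ x + ψ x := rfl

/-- The augmentation. -/
noncomputable def aug (T : Type) [Group T] : MonoidAlgebra ℤ T →ₐ[ℤ] ℤ :=
  MonoidAlgebra.lift ℤ ℤ T 1

theorem act_int {T : Type} [Group T] (b : MonoidAlgebra ℤ T) (f : T →* Multiplicative ℤ)
    (hf : ∀ t, f t = 1) (z : Multiplicative ℤ) : act b f z = z ^ (aug T b) := by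
  unfold act aug
  rw [MonoidAlgebra.lift_apply, Finsupp.sum]
  have h1 : ∀ t ∈ b.coeff.support.toList, (f t * z * (f t)⁻¹) ^ (b.coeff t) = z ^ (b.coeff t) := by
    intro t _
    rw [hf t]
    simp
  rw [List.map_congr_left h1]
  simp only [MonoidHom.one_apply, smul_eq_mul, mul_one]
  rw [← Finset.sum_map_toList]
  induction b.coeff.support.toList with
  | nil => simp
  | cons a l ih => rw [List.map_cons, List.prod_cons, ih, List.map_cons, List.sum_cons, zpow_add]

section T

variable {n : ℕ} (q : Fin n → ℕ) [∀ i, NeZero (q i)]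

/-- The direct product of the cyclic groups of orders `q i`. -/
abbrev TT : Type := (i : Fin n) → Multiplicative (ZMod (q i))

/-- The norm element of the `j`-th factor. -/
noncomputable def Nel (j : Fin n) : MonoidAlgebra ℤ (TT q) :=
  ∑ a : Multiplicative (ZMod (q j)),
    MonoidAlgebra.of ℤ (TT q) (MonoidHom.mulSingle (fun i => Multiplicative (ZMod (q i))) j a)

theorem Nel_sq (j : Fin n) : Nel q j * Nel q j = ((q j : ℤ) : MonoidAlgebra ℤ (TT q)) * Nel q j := by
  unfold Nel
  rw [Finset.sum_mul]
  have h1 : ∀ a : Multiplicative (ZMod (q j)),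
      MonoidAlgebra.of ℤ (TT q) (MonoidHom.mulSingle (fun i => Multiplicative (ZMod (q i))) j a) *
        ∑ b : Multiplicative (ZMod (q j)),
          MonoidAlgebra.of ℤ (TT q) (MonoidHom.mulSingle (fun i => Multiplicative (ZMod (q i))) j b) =
      ∑ b : Multiplicative (ZMod (q j)),
          MonoidAlgebra.of ℤ (TT q)
            (MonoidHom.mulSingle (fun i => Multiplicative (ZMod (q i))) j b) := by
    intro a
    rw [Finset.mul_sum]
    apply Fintype.sum_equiv (Equiv.mulLeft a)
    intro b
    rw [Equiv.coe_mulLeft, ← map_mul, ← map_mul]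
  rw [Finset.sum_congr rfl (fun a _ => h1 a), Finset.sum_const, Finset.card_univ, nsmul_eq_mul]
  have hcard : Fintype.card (Multiplicative (ZMod (q j))) = q j := by
    rw [Fintype.card_multiplicative, ZMod.card]
  rw [hcard]
  push_cast
  rfl

theorem aug_Nel (j : Fin n) : aug (TT q) (Nel q j) = q j := by
  unfold aug Nel
  rw [map_sum]
  simp [ZMod.card]

/-- The space of functions on `T` with values in the field with two elements. -/
abbrev VV : Type := TT q → ZMod 2

/-- Translation. -/
def transl (t : TT q) : VV q ≃+ VV q where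
  toFun v := fun s => v (t⁻¹ * s)
  invFun v := fun s => v (t * s)
  left_inv v := by ext s; simp
  right_inv v := by ext s; simp
  map_add' v w := rfl

/-- The translation action. -/
def phi : TT q →* MulAut (Multiplicative (VV q)) where
  toFun t := AddEquiv.toMultiplicative (transl q t)
  map_one' := by
    ext v
    show (fun s => Multiplicative.toAdd v ((1 : TT q)⁻¹ * s)) _ = _
    simp
  map_mul' s t := by
    ext v x
    show (Multiplicative.toAdd v ((s * t)⁻¹ * x)) = Multiplicative.toAdd v (t⁻¹ * (s⁻¹ * x))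
    rw [mul_inv_rev, mul_assoc]

/-- The wreath product of the group of order two by `T`. -/
abbrev GG : Type := Multiplicative (VV q) ⋊[phi q] TT q

/-- The one variable functions used for the coefficient. -/
def gfun (m : ℕ) (a : Multiplicative (ZMod m)) : ZMod 2 :=
  (if a = 1 then 1 else 0) - (if a = Multiplicative.ofAdd 1 then 1 else 0)

theorem gfun_sum (m : ℕ) [NeZero m] : ∑ a : Multiplicative (ZMod m), gfun m a = 0 := by
  unfold gfun
  rw [Finset.sum_sub_distrib]
  simp

/-- The coefficient. -/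
def cfun : VV q := fun s => ∏ i, gfun (q i) (s i)

theorem cfun_one (hq : ∀ i, 2 ≤ q i) : cfun q 1 = 1 := by
  unfold cfun
  apply Finset.prod_eq_one
  intro i _
  unfold gfun
  have h1 : (1 : Multiplicative (ZMod (q i))) ≠ Multiplicative.ofAdd 1 := by
    intro h
    have h2 : (0 : ZMod (q i)) = 1 := h
    have : Fact (1 < q i) := ⟨hq i⟩
    exact zero_ne_one h2
  simp [h1]

theorem cfun_sum (j : Fin n) (s : TT q) :
    ∑ a : Multiplicative (ZMod (q j)),
      cfun q ((MonoidHom.mulSingle (fun i => Multiplicative (ZMod (q i))) j a)⁻¹ * s) = 0 := by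
  unfold cfun
  have h1 : ∀ a : Multiplicative (ZMod (q j)),
      ∏ i, gfun (q i) (((MonoidHom.mulSingle (fun i => Multiplicative (ZMod (q i))) j a)⁻¹ * s) i) =
      gfun (q j) (a⁻¹ * s j) * ∏ i ∈ Finset.univ.erase j, gfun (q i) (s i) := by
    intro a
    rw [← Finset.mul_prod_erase _ _ (Finset.mem_univ j)]
    congr 1
    · simp
    · apply Finset.prod_congr rfl
      intro i hi
      have hij : i ≠ j := (Finset.mem_erase.1 hi).1
      simp [Pi.mulSingle_eq_of_ne hij]
  rw [Finset.sum_congr rfl (fun a _ => h1 a), ← Finset.sum_mul]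
  have h2 : ∑ a : Multiplicative (ZMod (q j)), gfun (q j) (a⁻¹ * s j) =
      ∑ a : Multiplicative (ZMod (q j)), gfun (q j) a := by
    apply Fintype.sum_equiv ((Equiv.inv _).trans (Equiv.mulRight (s j)))
    intro a
    simp
  rw [h2, gfun_sum, zero_mul]

/-- The action of `T` on the functions, as a homomorphism into the endomorphism ring. -/
noncomputable def rhoV : TT q →* AddMonoid.End (Additive (Multiplicative (VV q))) where
  toFun t := MonoidHom.toAdditive ((phi q t).toMonoidHom)
  map_one' := by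
    rw [map_one]
    rfl
  map_mul' s t := by
    rw [map_mul]
    rfl

theorem lift_Nel_cfun (j : Fin n) :
    MonoidAlgebra.lift ℤ (AddMonoid.End (Additive (Multiplicative (VV q)))) (TT q) (rhoV q) (Nel q j)
      (Additive.ofMul (Multiplicative.ofAdd (cfun q))) = 0 := by
  unfold Nel
  rw [map_sum, end_sum_apply]
  simp only [MonoidAlgebra.lift_of]
  have h1 : ∀ t : TT q, (rhoV q t) (Additive.ofMul (Multiplicative.ofAdd (cfun q))) =
      Additive.ofMul (Multiplicative.ofAdd (fun s => cfun q (t⁻¹ * s))) := fun t => rfl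
  simp only [h1]
  rw [← ofMul_prod, ← ofAdd_sum]
  have h2 : (∑ a : Multiplicative (ZMod (q j)), fun s =>
      cfun q ((MonoidHom.mulSingle (fun i => Multiplicative (ZMod (q i))) j a)⁻¹ * s)) = 0 := by
    ext s
    rw [Finset.sum_apply]
    exact cfun_sum q j s
  rw [h2]
  rfl

theorem act_c (b : MonoidAlgebra ℤ (TT q)) (hb : b ∈ I (Nel q) 1) :
    act b (SemidirectProduct.inr : TT q →* GG q)
      (SemidirectProduct.inl (Multiplicative.ofAdd (cfun q))) = 1 := by
  obtain ⟨y, hy1, hy2⟩ := act_lift (rhoV q) (SemidirectProduct.inr : TT q →* GG q)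
    (SemidirectProduct.inl) (fun t v => phi q t v) (MonoidHom.id (Multiplicative (VV q)))
    (fun t x => by rw [SemidirectProduct.inl_aut, map_inv]) (fun t x => rfl) b
    (Multiplicative.ofAdd (cfun q))
  rw [← hy1]
  have h1 : ∀ x ∈ I (Nel q) 1, MonoidAlgebra.lift ℤ
      (AddMonoid.End (Additive (Multiplicative (VV q)))) (TT q) (rhoV q) x
      (Additive.ofMul (Multiplicative.ofAdd (cfun q))) = 0 := by
    intro x hx
    unfold I at hx
    induction hx using Submodule.span_induction with
    | mem x hx =>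
      obtain ⟨S, hS, rfl⟩ := hx
      obtain ⟨j, rfl⟩ := Finset.card_eq_one.1 hS
      rw [Finset.prod_singleton]
      exact lift_Nel_cfun q j
    | zero => rw [map_zero]; rfl
    | add x y _ _ hx hy =>
      rw [map_add, end_add_apply, hx, hy, add_zero]
    | smul a x _ hx => rw [smul_eq_mul, map_mul, end_mul_apply, hx, map_zero]
  have h2 := h1 b hb
  have h3 : Additive.ofMul y = 0 := hy2.trans h2
  have h4 : y = 1 := h3
  rw [h4, map_one]

instance : Finite (GG q) := by
  apply Finite.of_injective (fun x : GG q => (x.left, x.right))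
  intro x y hxy
  simp only [Prod.mk.injEq] at hxy
  exact SemidirectProduct.ext hxy.1 hxy.2

theorem GG_metabelian : derivedSeries (GG q) 2 = ⊥ := by
  have h1 : derivedSeries (GG q) 1 ≤ (SemidirectProduct.rightHom : GG q →* TT q).ker := by
    rw [derivedSeries_one]
    exact Abelianization.commutator_subset_ker _
  rw [derivedSeries_succ, eq_bot_iff, Subgroup.commutator_le]
  intro x hx y hy
  have hx1 : x.right = 1 := h1 hx
  have hy1 : y.right = 1 := h1 hy
  rw [Subgroup.mem_bot, commutatorElement_eq_one_iff_mul_comm]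
  apply SemidirectProduct.ext
  · rw [SemidirectProduct.mul_left, SemidirectProduct.mul_left, hx1, hy1]
    simp [mul_comm]
  · rw [SemidirectProduct.mul_right, SemidirectProduct.mul_right, mul_comm]

end T

section Main

variable {n : ℕ} (q : Fin n → ℕ) [∀ i, NeZero (q i)]

/-- The iterated word. -/
noncomputable def tower {T : Type} [Group T] {H : Type u} [Group H] (b : ℕ → MonoidAlgebra ℤ T)
    (f : T →* H) (k : ℕ) (x : H) : ℕ → H
  | 0 => x
  | (s + 1) => act (b (k - s)) f (tower b f k x s)

theorem map_tower {T : Type} [Group T] {H K : Type*} [Group H] [Group K] (g : H →* K)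
    (b : ℕ → MonoidAlgebra ℤ T) (f : T →* H) (k : ℕ) (x : H) (s : ℕ) :
    g (tower b f k x s) = tower b (g.comp f) k (g x) s := by
  induction s with
  | zero => rfl
  | succ s ih => rw [tower, tower, map_act, ih]

theorem main (d : ℕ) (hn : n = d + 2) (hq2 : ∀ i, 2 ≤ q i)
    (hq : Pairwise (Function.onFun IsCoprime (fun i => (q i : ℤ)))) :
    ∃ c : GG q, c ≠ 1 ∧ ∃ w : Monoid.Coprod (GG q) (Multiplicative ℤ),
      Monoid.Coprod.snd w = Multiplicative.ofAdd 1 ∧
      ∀ (H : Type u) [Group H] (ι : GG q →* H) (h : H),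
        Monoid.Coprod.lift ι (zpowersHom H h) w = 1 → ι c ∈ derivedSeries H d := by
  classical
  have hex : ∀ i : ℕ, ∃ b : MonoidAlgebra ℤ (TT q), i ≤ d → (b ∈ I (Nel q) (i + 1) ∧
      aug (TT q) b = 1 ∧ ∀ x ∈ I (Nel q) (i + 2), (1 - b) * x = 0) := by
    intro i
    by_cases hi : i ≤ d
    · obtain ⟨b, hb1, hb2, hb3⟩ := exists_b (N := Nel q) (q := fun i => (q i : ℤ))
        (ε := (aug (TT q)).toRingHom) (Nel_sq q) hq (aug_Nel q) (i + 1)
        (by rw [Fintype.card_fin]; omega)
      exact ⟨b, fun _ => ⟨hb1, hb2, hb3⟩⟩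
    · exact ⟨0, fun h => absurd h hi⟩
  choose b hb using hex
  have hbb : ∀ i, i < d → (1 - b i) * b (i + 1) = 0 := fun i hi =>
    (hb i (by omega)).2.2 _ (hb (i + 1) (by omega)).1
  set c : GG q := SemidirectProduct.inl (Multiplicative.ofAdd (cfun q)) with hc
  have hc0 : act (b 0) (SemidirectProduct.inr : TT q →* GG q) c = 1 :=
    act_c q (b 0) (hb 0 (by omega)).1
  set fF : TT q →* Monoid.Coprod (GG q) (Multiplicative ℤ) :=
    Monoid.Coprod.inl.comp SemidirectProduct.inr with hfF
  set X : Monoid.Coprod (GG q) (Multiplicative ℤ) :=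
    Monoid.Coprod.inr (Multiplicative.ofAdd (1 : ℤ)) with hX
  refine ⟨c, ?_, act (b 0) fF (tower b fF d X d) * (Monoid.Coprod.inl c)⁻¹, ?_, ?_⟩
  · intro h
    have h1 : Multiplicative.ofAdd (cfun q) = 1 := by
      apply SemidirectProduct.inl_injective (φ := phi q)
      rw [map_one]
      exact h
    have h2 : cfun q = 0 := h1
    have h3 := cfun_one q hq2
    rw [h2] at h3
    exact zero_ne_one h3
  · have hf1 : ∀ t, (Monoid.Coprod.snd.comp fF) t = 1 := by
      intro t
      simp [hfF]
    have hs : ∀ s, s ≤ d → Monoid.Coprod.snd (tower b fF d X s) = Multiplicative.ofAdd 1 := by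
      intro s
      induction s with
      | zero => intro _; simp [tower, hX]
      | succ s ih =>
        intro hs
        rw [tower, map_act, act_int _ _ hf1, ih (by omega), (hb (d - s) (by omega)).2.1, zpow_one]
    rw [map_mul, map_act, act_int _ _ hf1, hs d le_rfl, (hb 0 (by omega)).2.1, zpow_one, map_inv,
      Monoid.Coprod.snd_apply_inl, inv_one, mul_one]
  · intro H _ ι h hw
    set g := Monoid.Coprod.lift ι (zpowersHom H h) with hg
    have hgf : g.comp fF = ι.comp SemidirectProduct.inr := by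
      ext t
      simp [hg, hfF]
    rw [map_mul, map_act, map_tower, hgf, map_inv, mul_inv_eq_one] at hw
    have hgc : g (Monoid.Coprod.inl c) = ι c := by simp [hg]
    rw [hgc] at hw
    have hc1 : act (b 0) (ι.comp SemidirectProduct.inr) (ι c) = 1 := by
      rw [← map_act, hc0, map_one]
    have := iterate (ι.comp SemidirectProduct.inr) b
      (fun i => tower b (ι.comp SemidirectProduct.inr) d (g X) (d - i)) (ι c) d
      (fun i hi => by
        show act (b (i + 1)) _ (tower b _ d (g X) (d - (i + 1))) = tower b _ d (g X) (d - i)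
        obtain ⟨s, hs⟩ : ∃ s, d - i = s + 1 := ⟨d - i - 1, by omega⟩
        rw [hs, tower]
        have h1 : d - (i + 1) = s := by omega
        have h2 : d - s = i + 1 := by omega
        rw [h1, h2])
      (by simpa using hw) hc1 hbb d le_rfl
    exact this.1

end Main

end Pool.Agent.Lib.MP_69c751_al
end
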